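import Mathlib
import Pool.Agent.MP_97be6c_lc.Mg.Main

set_option autoImplicit false

namespace Pool.Agent.Results.MP_97be6c_lc.Negative

open Pool.Agent.MP_97be6c_lc

/-- There is a zero-dimensional definable set of transseries that is not contained in the image
of any map from a power of the constant field that is definable in `(T, exp)`. -/
theorem result : ∃ (n : ℕ) (S : Set (Fin n → T)), 1 ≤ n ∧
    (Set.univ : Set T).Definable (lang false) S ∧ S.Nonempty ∧
    (∀ j, interior ((fun v => v j) '' S) = ∅) ∧
    ∀ (m : ℕ) (f : (Fin m → ℝ) → Fin n → T),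
      (Set.univ : Set T).Definable (lang true)
        {v : Fin m ⊕ Fin n → T | ∃ r : Fin m → ℝ,
          (∀ i, v (Sum.inl i) = cst (r i)) ∧ ∀ j, v (Sum.inr j) = f r j} →
      ¬ S ⊆ Set.range f :=
  ⟨1, SS, le_rfl, SS_definable, ⟨_, yT_mem one_ne_zero⟩, SS_interior, main⟩

end Pool.Agent.Results.MP_97be6c_lc.Negative
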